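import Mathlib

set_option autoImplicit false

namespace Pool.Agent.Results.MP_5b71d7_co.TwoDense

open Finset

/-- union-closed over `[n]` (families never contain the empty set). -/
def UC {n : ℕ} (F : Finset (Finset (Fin n))) : Prop :=
  ∅ ∉ F ∧ univ ∈ F ∧ ∀ A ∈ F, ∀ B ∈ F, A ∪ B ∈ F

/-- all nonempty subsets of `[n]`. -/
def Pn (n : ℕ) : Finset (Finset (Fin n)) := univ.filter fun A => A.Nonempty

open Classical in
/-- the closure of a family. -/
noncomputable def clos {n : ℕ} (F : Finset (Finset (Fin n))) : Finset (Finset (Fin n)) :=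
  (Pn n).filter fun A => UC (insert A F)

/-- `F` has density exactly `k`. -/
def IsDense {n : ℕ} (F : Finset (Finset (Fin n))) (k : ℕ) : Prop :=
  clos^[k] F = Pn n ∧ ∀ j < k, clos^[j] F ≠ Pn n

section
variable {n : ℕ}

def edges (G : Finset (Finset (Fin n))) (B : Finset (Fin n)) : Finset (Finset (Fin n) × Fin n) :=
  univ.filter fun p => B ⊆ p.1 ∧ p.1 ∉ G ∧ insert p.2 p.1 ∈ G

theorem edges_card (G : Finset (Finset (Fin n))) (hU : univ ∈ G) :
    ∀ (m : ℕ) (B : Finset (Fin n)), B ∉ G → Bᶜ.card = m → m ≤ (edges G B).card := by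
  intro m
  induction m with
  | zero => intro B _ _; exact Nat.zero_le _
  | succ m ih =>
    intro B hB hm
    by_cases hall : ∀ j ∉ B, insert j B ∈ G
    · rw [← hm]
      apply Finset.card_le_card_of_injOn (fun j => (B, j))
      · intro j hj
        simp only [coe_compl, Set.mem_compl_iff, mem_coe] at hj
        simp only [edges, coe_filter, mem_univ, true_and, Set.mem_setOf_eq]
        exact ⟨Subset.refl _, hB, hall j hj⟩
      · intro a _ b _ h
        exact (Prod.mk.inj h).2
    · push Not at hall
      obtain ⟨j, hjB, hj⟩ := hall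
      have h1 : (insert j B)ᶜ.card = m := by
        rw [Finset.compl_insert, Finset.card_erase_of_mem (by simpa using hjB), hm]
        rfl
      have h2 := ih _ hj h1
      -- an extra edge
      obtain ⟨C, hC, hmax⟩ := Finset.exists_max_image
        (univ.filter fun C : Finset (Fin n) => B ⊆ C ∧ j ∉ C ∧ C ∉ G) Finset.card
        ⟨B, by simp [hjB, hB]⟩
      simp only [mem_filter, mem_univ, true_and] at hC hmax
      obtain ⟨hBC, hjC, hCG⟩ := hC
      have hex : ∃ i, insert i C ∈ G := by
        by_cases hh : insert j C = univ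
        · exact ⟨j, hh ▸ hU⟩
        · obtain ⟨i, hi⟩ : ∃ i, i ∉ insert j C := by
            by_contra hc
            push Not at hc
            exact hh (Finset.eq_univ_iff_forall.2 hc)
          simp only [mem_insert, not_or] at hi
          refine ⟨i, ?_⟩
          by_contra hc
          have := hmax (insert i C) ⟨hBC.trans (subset_insert _ _), by
            simp only [mem_insert, not_or]; exact ⟨fun h => hi.1 h.symm, hjC⟩, hc⟩
          rw [Finset.card_insert_of_notMem hi.2] at this
          omega
      obtain ⟨i, hi⟩ := hex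
      have hsub : insert (C, i) (edges G (insert j B)) ⊆ edges G B := by
        intro p hp
        rcases Finset.mem_insert.1 hp with rfl | hp
        · simp only [edges, mem_filter, mem_univ, true_and]
          exact ⟨hBC, hCG, hi⟩
        · simp only [edges, mem_filter, mem_univ, true_and] at hp ⊢
          exact ⟨(subset_insert _ _).trans hp.1, hp.2⟩
      have hnot : (C, i) ∉ edges G (insert j B) := by
        simp only [edges, mem_filter, mem_univ, true_and, not_and]
        intro h
        exact absurd (h (mem_insert_self _ _)) hjC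
      have := Finset.card_le_card hsub
      rw [Finset.card_insert_of_notMem hnot] at this
      omega

theorem card_pairs (G : Finset (Finset (Fin n))) (f : Finset (Fin n) → Finset (Fin n)) :
    (univ.filter fun p : Finset (Fin n) × Fin n => p.1 ∈ G ∧ p.2 ∈ f p.1).card
      = ∑ A ∈ G, (f A).card := by
  rw [← Finset.card_sigma]
  apply Finset.card_bij (fun p _ => (⟨p.1, p.2⟩ : Σ _ : Finset (Fin n), Fin n))
  · intro p hp
    simpa using hp
  · intro p _ q _ h
    simp only [Sigma.mk.injEq, heq_eq_eq] at h
    exact Prod.ext h.1 h.2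
  · intro q hq
    exact ⟨(q.1, q.2), by simpa using hq, rfl⟩

theorem up_count (G : Finset (Finset (Fin n))) (hup : ∀ A ∈ G, ∀ i, insert i A ∈ G) :
    ∑ A ∈ G, Aᶜ.card + (edges G ∅).card ≤ ∑ A ∈ G, A.card := by
  rw [← card_pairs G (fun A => Aᶜ), ← card_pairs G (fun A => A), ← Finset.card_union_of_disjoint]
  · apply Finset.card_le_card_of_injOn (fun p => (insert p.2 p.1, p.2))
    · intro p hp
      simp only [edges, coe_union, coe_filter, mem_univ, true_and, Set.mem_union,
        Set.mem_setOf_eq, mem_compl] at hp ⊢
      refine ⟨?_, mem_insert_self _ _⟩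
      rcases hp with hp | hp
      · exact hup _ hp.1 _
      · exact hp.2.2
    · have key : ∀ p : Finset (Fin n) × Fin n, p ∈ (↑((univ.filter fun p : Finset (Fin n) × Fin n =>
          p.1 ∈ G ∧ p.2 ∈ p.1ᶜ) ∪ edges G ∅) : Set _) → p.2 ∉ p.1 := by
        intro p hp
        simp only [edges, coe_union, coe_filter, mem_univ, true_and, Set.mem_union,
          Set.mem_setOf_eq, mem_compl] at hp
        rcases hp with hp | hp
        · exact hp.2
        · intro h
          rw [Finset.insert_eq_of_mem h] at hp
          exact hp.2.1 hp.2.2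
      intro p hp q hq h
      have h1 := (Prod.mk.inj h).1
      have h2 : p.2 = q.2 := (Prod.mk.inj h).2
      have hp' := key p hp
      have hq' := key q hq
      refine Prod.ext ?_ h2
      rw [← Finset.erase_insert hp', h1, h2, Finset.erase_insert hq']
  · rw [Finset.disjoint_left]
    intro p hp hq
    simp only [edges, mem_filter, mem_univ, true_and] at hp hq
    exact hq.2.1 hp.1

theorem main (F : Finset (Finset (Fin n))) (hF : UC F) (h2 : clos (clos F) = Pn n) :
    ∑ A ∈ F, Aᶜ.card ≤ ∑ A ∈ F, A.card := by
  classical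
  obtain ⟨h0, hU, hun⟩ := hF
  have hsubc : ∀ A ∈ F, A ∈ clos F := by
    intro A hA
    simp only [clos, Pn, mem_filter, mem_univ, true_and]
    refine ⟨Finset.nonempty_iff_ne_empty.2 fun h => h0 (h ▸ hA), ?_⟩
    rw [Finset.insert_eq_of_mem hA]
    exact ⟨h0, hU, hun⟩
  have hstep : ∀ B ∈ clos F, ∀ x, insert x B ∈ clos F := by
    intro B hB x
    have hx : ({x} : Finset (Fin n)) ∈ clos (clos F) := by
      rw [h2]; simp [Pn]
    have hx2 : UC (insert {x} (clos F)) := (mem_filter.1 hx).2
    have := hx2.2.2 {x} (mem_insert_self _ _) B (mem_insert_of_mem hB)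
    rw [← Finset.insert_eq] at this
    rcases Finset.mem_insert.1 this with h | h
    · have hne : B.Nonempty := by
        have := (mem_filter.1 hB).1
        simpa [Pn] using this
      obtain ⟨y, hy⟩ := hne
      have : y ∈ ({x} : Finset (Fin n)) := h ▸ mem_insert_of_mem hy
      rw [Finset.mem_singleton] at this
      subst this
      rw [Finset.insert_eq_of_mem hy]
      exact hB
    · exact h
  have hupc : ∀ B ∈ clos F, ∀ C, B ⊆ C → C ∈ clos F := by
    intro B hB C hBC
    have : ∀ D : Finset (Fin n), B ∪ D ∈ clos F := by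
      intro D
      induction D using Finset.induction_on with
      | empty => simpa using hB
      | insert x D _ ih => rw [Finset.union_insert]; exact hstep _ ih x
    have h := this C
    rwa [Finset.union_eq_right.2 hBC] at h
  have hkey : ∀ A1 ∈ F, ∀ A2 ∈ F, A1 ⊂ A2 → ∀ B, A2 ⊆ B → B ∈ F := by
    intro A1 h1 A2 h2' hlt B hB
    obtain ⟨x, hx2, hx1⟩ := Finset.exists_of_ssubset hlt
    have hC : B.erase x ∈ clos F := by
      apply hupc A1 (hsubc _ h1)
      intro y hy
      exact Finset.mem_erase.2 ⟨fun h => hx1 (h ▸ hy), hB (hlt.1 hy)⟩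
    have hC2 : UC (insert (B.erase x) F) := (mem_filter.1 hC).2
    have := hC2.2.2 A2 (mem_insert_of_mem h2') _ (mem_insert_self _ _)
    have he : A2 ∪ B.erase x = B := by
      ext y
      simp only [mem_union, mem_erase]
      constructor
      · rintro (h | h)
        · exact hB h
        · exact h.2
      · intro h
        by_cases hy : y = x
        · exact Or.inl (hy ▸ hx2)
        · exact Or.inr ⟨hy, h⟩
    rw [he] at this
    rcases Finset.mem_insert.1 this with h | h
    · exact absurd (h ▸ hB hx2 : x ∈ B.erase x) (by simp)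
    · exact h
  set G := F.filter fun B => ∃ A ∈ F, A ⊂ B with hG
  set M := F.filter fun B => ¬ ∃ A ∈ F, A ⊂ B with hM
  have hGup : ∀ A ∈ G, ∀ C, A ⊆ C → C ∈ G := by
    intro A hA C hAC
    obtain ⟨hAF, A1, h1, hlt⟩ := mem_filter.1 hA
    exact mem_filter.2 ⟨hkey A1 h1 A hAF hlt C hAC, A1, h1, lt_of_lt_of_le hlt hAC⟩
  by_cases hUG : univ ∈ G
  · have e1 := up_count G (fun A hA i => hGup A hA _ (subset_insert _ _))
    have e2 : ∑ B ∈ M, Bᶜ.card ≤ (edges G ∅).card := by
      calc ∑ B ∈ M, Bᶜ.card ≤ ∑ B ∈ M, (edges G B).card := by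
            apply Finset.sum_le_sum
            intro B hB
            apply edges_card G hUG _ B _ rfl
            intro h
            exact (mem_filter.1 hB).2 (mem_filter.1 h).2
        _ = (M.biUnion (edges G)).card := by
            rw [Finset.card_biUnion]
            intro B hB B' hB' hne
            rw [Function.onFun, Finset.disjoint_left]
            intro p hp hq
            simp only [edges, mem_filter, mem_univ, true_and] at hp hq
            obtain ⟨hBF, hBm⟩ := mem_filter.1 (mem_coe.1 hB)
            obtain ⟨hBF', hBm'⟩ := mem_filter.1 (mem_coe.1 hB')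
            apply hp.2.1
            apply hGup (B ∪ B') _ _ (union_subset hp.1 hq.1)
            refine mem_filter.2 ⟨hun _ hBF _ hBF', B, hBF, ?_⟩
            refine Finset.ssubset_iff_subset_ne.2 ⟨subset_union_left, fun h => ?_⟩
            apply hBm
            refine ⟨B', hBF', Finset.ssubset_iff_subset_ne.2 ⟨?_, fun h' => hne h'.symm⟩⟩
            rw [h]; exact subset_union_right
        _ ≤ (edges G ∅).card := by
            apply Finset.card_le_card
            intro p hp
            obtain ⟨B, -, hp⟩ := Finset.mem_biUnion.1 hp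
            simp only [edges, mem_filter, mem_univ, true_and] at hp ⊢
            exact ⟨empty_subset _, hp.2⟩
    have s1 := Finset.sum_filter_add_sum_filter_not F (fun B => ∃ A ∈ F, A ⊂ B)
      (fun A => Aᶜ.card)
    have s2 := Finset.sum_filter_add_sum_filter_not F (fun B => ∃ A ∈ F, A ⊂ B)
      (fun A => A.card)
    rw [← hG, ← hM] at s1 s2
    omega
  · apply Finset.sum_le_sum
    intro A hA
    have : A = univ := by
      by_contra hne
      exact hUG (mem_filter.2 ⟨hU, A, hA,
        Finset.ssubset_iff_subset_ne.2 ⟨subset_univ _, hne⟩⟩)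
    subst this
    simp

end

/-- Every 2-dense union-closed family satisfies Frankl's condition (even with `|F|/2`). -/
theorem result (n : ℕ) (hn : 1 ≤ n) (F : Finset (Finset (Fin n))) (hF : UC F)
    (hd : IsDense F 2) :
    ∃ i : Fin n, F.card ≤ 2 * (F.filter fun A => i ∈ A).card ∧
      F.card / 2 ≤ (F.filter fun A => i ∈ A).card := by
  have h := main F hF hd.1
  have e1 : ∑ A ∈ F, Aᶜ.card + ∑ A ∈ F, A.card = ∑ _i : Fin n, F.card := by
    rw [← Finset.sum_add_distrib]
    simp only [Finset.card_compl_add_card, Fintype.card_fin, sum_const, smul_eq_mul,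
      card_univ]
    ring
  have e2 : ∑ A ∈ F, A.card = ∑ i : Fin n, (F.filter fun A => i ∈ A).card := by
    simp only [Finset.card_filter]
    rw [Finset.sum_comm]
    apply Finset.sum_congr rfl
    intro A _
    simp
  have e3 : ∑ _i : Fin n, F.card ≤ ∑ i : Fin n, 2 * (F.filter fun A => i ∈ A).card := by
    rw [← Finset.mul_sum]
    omega
  haveI : Nonempty (Fin n) := ⟨⟨0, hn⟩⟩
  obtain ⟨i, -, hi⟩ := Finset.exists_le_of_sum_le Finset.univ_nonempty e3
  exact ⟨i, hi, by omega⟩

end Pool.Agent.Results.MP_5b71d7_co.TwoDense
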